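import Pool.Agent.helper83.FI.SpecR

/-!
# Project fi (MP_baa4d7_al), block R, row CHC: complex conjugation of character values
-/

set_option autoImplicit false

namespace Pool.Agent.FI

open Pool.Agent.helper58.DC Pool.Agent.DI Pool.Agent.GR Pool.Agent.OB

theorem CHC (hGLP : GLP_stmt) : CHC_stmt := by
  intro G _ _ H ψ hψ g
  have hn : 0 < Nat.card G := Nat.card_pos
  have hcop : (Nat.card G - 1).Coprime (Nat.card G) := by
    obtain ⟨m, hm⟩ : ∃ m, Nat.card G = m + 1 := ⟨Nat.card G - 1, by omega⟩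
    rw [hm]
    simp
  have h1 := hGLP G (starRingAut : ℂ ≃+* ℂ) (Nat.card G - 1) hcop ?_ H ψ hψ g
  · have h2 : g ^ (Nat.card G - 1) = g⁻¹ := by
      have h3 : g ^ (Nat.card G - 1) * g = 1 := by
        rw [← pow_succ, Nat.sub_add_cancel hn]
        exact pow_card_eq_one'
      exact eq_inv_of_mul_eq_one_left h3
    rw [h2] at h1
    exact h1
  · intro ζ hζ
    have h4 : ζ ^ (Nat.card G - 1) * ζ = 1 := by
      rw [← pow_succ, Nat.sub_add_cancel hn, hζ]
    have h5 : ‖ζ‖ = 1 := by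
      have h6 : ‖ζ‖ ^ Nat.card G = 1 := by rw [← norm_pow, hζ, norm_one]
      exact (pow_eq_one_iff_of_nonneg (norm_nonneg _) hn.ne').1 h6
    have h7 : ζ⁻¹ = (starRingEnd ℂ) ζ := Complex.inv_eq_conj h5
    have h8 : ζ ^ (Nat.card G - 1) = ζ⁻¹ := eq_inv_of_mul_eq_one_left h4
    rw [h8, h7]
    rfl

end Pool.Agent.FI
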