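import Pool.Agent.helper83.FI.SpecR

/-!
# Project fi (MP_baa4d7_al), block R, row EVF: facts on `ev`
-/

set_option autoImplicit false

namespace Pool.Agent.FI

open Pool.Agent.helper58.DC Pool.Agent.DI Pool.Agent.GR Pool.Agent.OB

theorem EVF (hB2 : B2_stmt) : EVF_stmt := by
  intro G _ _ ψ g
  classical
  have : Fintype G := Fintype.ofFinite G
  refine ⟨fun i j => ⟨?_, ?_⟩, fun k i => ?_, ?_, ?_, ?_⟩
  · unfold ev
    rw [finsum_eq_sum_of_fintype, finsum_eq_sum_of_fintype, finsum_eq_sum_of_fintype,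
      ← Finset.sum_add_distrib]
    refine Finset.sum_congr rfl fun x _ => ?_
    rw [Pi.add_apply]
    ring
  · unfold ev
    rw [finsum_eq_sum_of_fintype, finsum_eq_sum_of_fintype, finsum_eq_sum_of_fintype,
      ← Finset.sum_sub_distrib]
    refine Finset.sum_congr rfl fun x _ => ?_
    rw [Pi.sub_apply]
    ring
  · unfold ev
    rw [finsum_eq_sum_of_fintype, finsum_eq_sum_of_fintype, Finset.mul_sum]
    refine Finset.sum_congr rfl fun x _ => ?_
    rw [Pi.smul_apply, smul_eq_mul]
    ring
  · unfold ev dl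
    rw [finsum_eq_single _ (1 : G)]
    · simp
    · intro x hx
      simp [hx]
  · unfold ev
    simp
  · intro H hψ h hh i
    unfold ev
    rw [finsum_eq_sum_of_fintype, finsum_eq_sum_of_fintype,
      ← Equiv.sum_comp (MulAut.conj h).toEquiv]
    refine Finset.sum_congr rfl fun x _ => ?_
    have h1 : (MulAut.conj h).toEquiv x = h * x * h⁻¹ := rfl
    rw [h1]
    congr 1
    have h2 := ((hB2 G H).2 ψ hψ).2.1 (g * x) h hh
    rw [← h2]
    congr 1
    group

end Pool.Agent.FI
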