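import Pool.Agent.helper83.FI.SpecR

/-!
# Project fi (MP_baa4d7_al), block R, row RPW: congruences of `p ^ t`-th powers
-/

set_option autoImplicit false

namespace Pool.Agent.FI

open Pool.Agent.helper58.DC Pool.Agent.DI Pool.Agent.GR Pool.Agent.OB

theorem RPW_dvd (p : ℕ) (hp : p.Prime) (t r K j : ℕ) (hj : 0 < j) (hjK : j ≤ K)
    (ht : r + K ≤ t) : p ^ r ∣ (p ^ t).choose j := by
  have hpos : 0 < p ^ t := pow_pos hp.pos t
  obtain ⟨n, hn⟩ : ∃ n, p ^ t = n + 1 := ⟨p ^ t - 1, by omega⟩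
  obtain ⟨k, rfl⟩ : ∃ k, j = k + 1 := ⟨j - 1, by omega⟩
  have h1 := Nat.add_one_mul_choose_eq n k
  rw [← hn] at h1
  obtain ⟨s, m, hm, hjm⟩ := Nat.exists_eq_pow_mul_and_not_dvd (n := k + 1) (by omega) p hp.ne_one
  have hs : s ≤ K := by
    have h2 : p ^ s ≤ k + 1 := Nat.le_of_dvd (by omega) ⟨m, hjm⟩
    have h3 : s < p ^ s := Nat.lt_pow_self hp.one_lt
    omega
  generalize (p ^ t).choose (k + 1) = C at h1 ⊢
  have h4 : p ^ (r + s) ∣ C * (k + 1) := by
    rw [← h1]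
    exact (pow_dvd_pow p (by omega)).mul_right _
  have h5 : p ^ s * p ^ r ∣ p ^ s * (C * m) := by
    have e : p ^ s * (C * m) = C * (k + 1) := by
      rw [hjm]
      ring
    rw [e, ← pow_add, add_comm s r]
    exact h4
  have h6 := Nat.dvd_of_mul_dvd_mul_left (pow_pos hp.pos s) h5
  have h7 : Nat.Coprime (p ^ r) m := Nat.Coprime.pow_left r ((Nat.Prime.coprime_iff_not_dvd hp).2 hm)
  exact h7.dvd_of_dvd_mul_right h6

theorem RPW (hVAL : VAL_stmt) : RPW_stmt := by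
  intro p M hs z z' hz hz' hzz r
  set x := z - z' with hx
  have hxi : IntAt M x := IntAt.sub hs hz hz'
  obtain ⟨k, hk⟩ := hVAL p M hs x hzz
  -- high powers of `x`
  have hpow : ∀ j, k * r ≤ j → Small p M r (x ^ j) := by
    intro j hj
    obtain ⟨i, rfl⟩ := Nat.exists_eq_add_of_le hj
    rw [pow_add, pow_mul]
    have h1 := Small.pow hs hk r
    rw [mul_one] at h1
    rw [mul_comm]
    exact Small.mul_left hs (IntAt.pow hs hxi i) h1
  refine ⟨r + k * r, fun t ht => ?_⟩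
  have e0 : z = x + z' := by rw [hx]; ring
  have e1 : z ^ p ^ t - z' ^ p ^ t = ∑ m ∈ Finset.range (p ^ t),
      x ^ (m + 1) * z' ^ (p ^ t - (m + 1)) * ((p ^ t).choose (m + 1) : ℂ) := by
    rw [e0, add_pow, Finset.sum_range_succ']
    simp
  rw [e1]
  refine Small.sum hs _ fun m _ => ?_
  by_cases hm : k * r ≤ m + 1
  · have h2 := Small.mul_left hs (IntAt.mul hs (IntAt.pow hs hz' (p ^ t - (m + 1)))
      (IntAt.natCast hs ((p ^ t).choose (m + 1)))) (hpow _ hm)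
    have e2 : x ^ (m + 1) * z' ^ (p ^ t - (m + 1)) * ((p ^ t).choose (m + 1) : ℂ) =
        z' ^ (p ^ t - (m + 1)) * ((p ^ t).choose (m + 1) : ℂ) * x ^ (m + 1) := by ring
    rw [e2]
    exact h2
  · obtain ⟨c, hc⟩ := RPW_dvd p hs.pr t r (k * r) (m + 1) (by omega) (by omega) ht
    have h3 : Small p M r ((p ^ t).choose (m + 1) : ℂ) :=
      ⟨c, IntAt.natCast hs c, by rw [hc]; push_cast; rfl⟩
    exact Small.mul_left hs (IntAt.mul hs (IntAt.pow hs hxi _) (IntAt.pow hs hz' _)) h3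

end Pool.Agent.FI
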