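import Pool.Agent.helper83.FI.SpecR

/-!
# Project fi (MP_baa4d7_al), block R, row TRC: the trace formula
-/

set_option autoImplicit false

namespace Pool.Agent.FI

open Pool.Agent.helper58.DC Pool.Agent.DI Pool.Agent.GR Pool.Agent.OB

/-- the second orthogonality relation -/
theorem TRC_so (hIDM : IDM_stmt) (hEXP : EXP_stmt) (hCCI : CCI_stmt) (hCVF : CVF_stmt)
    (G : Type) [Group G] [Finite G] (H : Subgroup G) (g : G) (hg : g ∈ H) (h : G) (hh : h ∈ H) :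
    ∑ᶠ χ ∈ IrrOn H, χ g * χ h⁻¹ = ∑ᶠ z ∈ (H : Set G), (dl : G → ℂ) (z⁻¹ * g⁻¹ * z * h) := by
  obtain ⟨hcf, hcc, -, hsum⟩ := hIDM G H (IrrOn H) (le_refl _)
  have hdlcf : CF H (dl : G → ℂ) := (hCVF G).2.2.2.2.2.2.2.2.2.1 H
  have e : eS H (IrrOn H) = dl := by
    have h1 : CF H (eS H (IrrOn H) - dl) := ((hCVF G).2.2.2.2.2.2.2.1 H _ _ hcf hdlcf).2.2
    have h2 := hEXP G H _ h1 fun ψ hψ => by
      obtain ⟨hlin, -⟩ := hCCI G H ψ hψ
      rw [(hlin 1 (eS H (IrrOn H)) dl).2.1, (hlin 1 dl dl).2.2.2, hcc ψ hψ, if_pos hψ, sub_self]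
    exact sub_eq_zero.1 h2
  have h3 := hsum g hg h hh
  rw [e] at h3
  exact h3.symm

theorem TRC (hIDM : IDM_stmt) (hEXP : EXP_stmt) (hCCI : CCI_stmt) (hCVF : CVF_stmt)
    (hB2 : B2_stmt) : TRC_stmt := by
  intro G _ _ H i j hi hj a ha b hb
  classical
  have : Fintype G := Fintype.ofFinite G
  have hfin : (IrrOn H).Finite := (hB2 G H).1
  have hHf : ((H : Set G)).Finite := Set.toFinite _
  have hmem : ∀ z, z ∈ hHf.toFinset ↔ z ∈ H := fun z => hHf.mem_toFinset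
  have hL : ∑ᶠ z ∈ (H : Set G), co i j z (a * z * b⁻¹) =
      ∑ x, i x * ∑ z ∈ hHf.toFinset, j (b * z⁻¹ * a⁻¹ * x⁻¹ * z) := by
    rw [finsum_mem_eq_finite_toFinset_sum _ hHf]
    simp only [co, finsum_eq_sum_of_fintype]
    rw [Finset.sum_comm]
    refine Finset.sum_congr rfl fun x _ => ?_
    rw [Finset.mul_sum]
    refine Finset.sum_congr rfl fun z _ => ?_
    congr 2
    group
  have hR : ∑ᶠ χ ∈ IrrOn H, ev χ i a * ev χ j b⁻¹ =
      ∑ x, i x * ∑ y, j y * ∑ᶠ χ ∈ IrrOn H, χ (a * x) * χ (y⁻¹ * b)⁻¹ := by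
    have e1 : ∀ x y : G, ∑ᶠ χ ∈ IrrOn H, χ (a * x) * χ (y⁻¹ * b)⁻¹ =
        ∑ χ ∈ hfin.toFinset, χ (a * x) * χ (y⁻¹ * b)⁻¹ :=
      fun x y => finsum_mem_eq_finite_toFinset_sum _ hfin
    rw [finsum_mem_eq_finite_toFinset_sum _ hfin]
    simp only [e1, ev, finsum_eq_sum_of_fintype]
    have e2 : ∀ χ : G → ℂ, (∑ x, i x * χ (a * x)) * (∑ y, j y * χ (b⁻¹ * y)) =
        ∑ x, ∑ y, i x * (j y * (χ (a * x) * χ (y⁻¹ * b)⁻¹)) := by
      intro χ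
      rw [Finset.sum_mul_sum]
      refine Finset.sum_congr rfl fun x _ => Finset.sum_congr rfl fun y _ => ?_
      rw [mul_inv_rev, inv_inv]
      ring
    rw [Finset.sum_congr rfl fun χ _ => e2 χ, Finset.sum_comm]
    refine Finset.sum_congr rfl fun x _ => ?_
    rw [Finset.sum_comm, Finset.mul_sum]
    refine Finset.sum_congr rfl fun y _ => ?_
    rw [Finset.mul_sum, Finset.mul_sum]
  rw [hL, hR]
  refine Finset.sum_congr rfl fun x _ => ?_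
  by_cases hx : x ∈ H
  swap
  · rw [hi x hx, zero_mul, zero_mul]
  congr 1
  have h1 : ∀ y : G, j y * ∑ᶠ χ ∈ IrrOn H, χ (a * x) * χ (y⁻¹ * b)⁻¹ =
      ∑ z ∈ hHf.toFinset, j y * (dl : G → ℂ) (z⁻¹ * (a * x)⁻¹ * z * (y⁻¹ * b)) := by
    intro y
    by_cases hy : y ∈ H
    · rw [TRC_so hIDM hEXP hCCI hCVF G H _ (H.mul_mem ha hx) _ (H.mul_mem (H.inv_mem hy) hb),
        finsum_mem_eq_finite_toFinset_sum _ hHf, Finset.mul_sum]
    · rw [hj y hy, zero_mul]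
      simp
  rw [Finset.sum_congr rfl fun y _ => h1 y, Finset.sum_comm]
  have h2 : ∀ z : G, ∑ y, j y * (dl : G → ℂ) (z⁻¹ * (a * x)⁻¹ * z * (y⁻¹ * b)) =
      j (b * z⁻¹ * x⁻¹ * a⁻¹ * z) := by
    intro z
    rw [Finset.sum_eq_single (b * z⁻¹ * x⁻¹ * a⁻¹ * z)]
    · have e : z⁻¹ * (a * x)⁻¹ * z * ((b * z⁻¹ * x⁻¹ * a⁻¹ * z)⁻¹ * b) = 1 := by group
      rw [e]
      simp [dl]
    · intro y _ hy
      have e : z⁻¹ * (a * x)⁻¹ * z * (y⁻¹ * b) ≠ 1 := by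
        intro e
        apply hy
        have e2 : y⁻¹ * b = z⁻¹ * (a * x) * z := by
          calc y⁻¹ * b = z⁻¹ * (a * x) * z * (z⁻¹ * (a * x)⁻¹ * z * (y⁻¹ * b)) := by group
            _ = z⁻¹ * (a * x) * z := by rw [e, mul_one]
        calc y = b * (y⁻¹ * b)⁻¹ := by group
          _ = b * (z⁻¹ * (a * x) * z)⁻¹ := by rw [e2]
          _ = b * z⁻¹ * x⁻¹ * a⁻¹ * z := by group
      unfold dl
      rw [if_neg e, mul_zero]
    · simp
  rw [Finset.sum_congr rfl fun z _ => h2 z]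
  refine Finset.sum_equiv (Equiv.mulLeft a) ?_ ?_
  · intro z
    rw [hmem, hmem, Equiv.coe_mulLeft]
    exact (H.mul_mem_cancel_left ha).symm
  · intro z _
    rw [Equiv.coe_mulLeft]
    congr 1
    group

end Pool.Agent.FI
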