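import Pool.Agent.helper59.FI.SpecB

/-!
# Project fi (MP_baa4d7_al), block A2, row FMT
-/

set_option autoImplicit false

namespace Pool.Agent.FI

open Pool.Agent.helper58.DC Pool.Agent.DI Pool.Agent.GR Pool.Agent.OB

theorem FMT (hFWA : FWA_stmt) (hCVS : CVS_stmt) : FMT_stmt := by
  intro p M hs G _ _ χ hχ R hR hcom θ hθ hind w hw hcard hcls hidx
  classical
  have : Fact p.Prime := ⟨hs.pr⟩
  obtain ⟨q, hq, hqi, hq3, -, hq5⟩ := hFWA p M hs G ⊤ R hR hcom le_top θ hθ w hw
  rw [inf_top_eq] at hq5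
  -- the index is prime to `p`
  have hk : ¬ p ∣ Nat.card (Cz (cz R) w) / Nat.card R := by
    rw [hcard]
    unfold pp
    have h1 := Nat.not_dvd_ordCompl (n := Nat.card (Cz (cz R) w)) hs.pr Nat.card_pos.ne'
    rwa [Nat.factorization_def _ hs.pr] at h1
  have hi3 : IntAt M (cc θ (cls (cz R) w)) :=
    IntAt.of_isIntegral hs (cc_cls_int (le_refl _) hθ w)
  have hm : ¬ InM M (((cz R).relIndex (TT M R θ) : ℂ) *
      ((Nat.card (Cz (cz R) w) / Nat.card R : ℕ) : ℂ) * cc θ (cls (cz R) w)) := by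
    intro h
    rcases InM.or hs (IntAt.mul hs (IntAt.natCast hs _) (IntAt.natCast hs _)) hi3 h with h | h
    · rcases InM.or hs (IntAt.natCast hs _) (IntAt.natCast hs _) h with h | h
      · exact hidx ((InM.natCast hs _).1 h)
      · exact hk ((InM.natCast hs _).1 h)
    · exact hcls h
  have hθq : ¬ InM M (cc θ q) := by
    intro h
    apply hm
    have h1 := InM.sub hs h hq5
    rwa [sub_sub_cancel] at h1
  have hSB : SB M (⊤ : Subgroup G) θ χ := (SB_top_iff hs).2 hind
  have hχq : ¬ InM M (cc χ q) := by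
    intro h
    apply hθq
    have h1 := InM.add hs (SBIb hs hSB hq hqi) h
    rwa [sub_add_cancel] at h1
  have hχ' : χ ∈ IrrOn (⊤ : Subgroup G) := IrrOn_top.2 hχ
  obtain ⟨y, hy1, hy2⟩ := hCVS p M hs G ⊤ χ q (fun t ht y => hq.1 t ht y) hqi
    (fun y => IntAt.of_isIntegral hs (cc_cls_int (le_refl _) hχ' y)) hχq
  rw [cc_cls_top] at hy2
  refine ⟨y, hy2, ?_⟩
  -- a Sylow subgroup of the centraliser
  obtain ⟨S⟩ : Nonempty (Sylow p (Cz (⊤ : Subgroup G) y)) := inferInstance
  have h1 := hq3 y hy1 ((S : Subgroup (Cz (⊤ : Subgroup G) y)).map (Cz (⊤ : Subgroup G) y).subtype)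
    (S.2.map _) (Subgroup.map_subtype_le _)
  have h2 : Nat.card ((S : Subgroup (Cz (⊤ : Subgroup G) y)).map (Cz (⊤ : Subgroup G) y).subtype) =
      p ^ (Nat.card (Cz (⊤ : Subgroup G) y)).factorization p := by
    rw [Subgroup.card_map_of_injective (Subgroup.subtype_injective _)]
    exact S.card_eq_multiplicity
  have h3 : Cz (⊤ : Subgroup G) y = Subgroup.centralizer ({y} : Set G) := by
    unfold Cz
    rw [top_inf_eq]
  have h4 : pp p (Subgroup.centralizer ({y} : Set G)) =
      p ^ (Nat.card (Cz (⊤ : Subgroup G) y)).factorization p := by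
    unfold pp
    rw [Nat.factorization_def _ hs.pr, h3]
  rw [h4, ← h2]
  exact h1

end Pool.Agent.FI
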